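import Pool.Agent.Lib.MP_72b724_gt.Interfaces

/-!
# CRIT: the set of critical values is null
-/

open scoped ENNReal Topology BigOperators
open MeasureTheory Set Filter Topology

namespace Pool.Agent.Lib.MP_72b724_gt.H1

noncomputable section

variable {n : ℕ} {M : Type} [MetricSpace M]

/-- The coordinates of Euclidean space. -/
abbrev ee (n : ℕ) : (Fin n → ℝ) ≃L[ℝ] EE n := (EuclideanSpace.equiv (Fin n) ℝ).symm

lemma dist_le_of_lip {F : M → Fin n → ℝ} (hF : ∀ k, LipschitzWith 1 (fun x => F x k)) (x y : M) :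
    dist (F x) (F y) ≤ dist x y := by
  rw [dist_pi_le_iff dist_nonneg]
  intro k
  simpa using (hF k).dist_le_mul x y

/-- Shifting a parametrisation. -/
lemma isParam_shift {ψ : EE n → M} {W : Set (EE n)} (h : IsParam ψ W) {v : EE n} (hv : v ∈ W)
    (T : EE n ≃L[ℝ] EE n) : IsParam (fun u => ψ (v + T u)) {u | v + T u ∈ W} where
  isOpen := h.isOpen.preimage (by fun_prop)
  zero_mem := by simpa using hv
  injOn := by
    intro a ha b hb hab
    have := h.injOn ha hb hab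
    exact T.injective (add_left_cancel this)
  cont := h.cont.comp (by fun_prop) (fun u hu => hu)
  isOpenMap := by
    intro V hV hVo
    have h1 : (fun u => ψ (v + T u)) '' V = ψ '' ((fun u => v + T u) '' V) := by
      rw [image_image]
    rw [h1]
    apply h.isOpenMap
    · rintro _ ⟨u, hu, rfl⟩
      exact hV hu
    · have h2 : (fun u => v + T u) = (Homeomorph.addLeft v) ∘ T.toHomeomorph := rfl
      rw [h2, image_comp]
      exact (Homeomorph.addLeft v).isOpenMap _ (T.toHomeomorph.isOpenMap _ hVo)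

lemma regular_of_deriv [MeasurableSpace M] {vol : Measure M} {F : M → Fin n → ℝ} {ψ : EE n → M}
    {W : Set (EE n)} (h : IsParam ψ W) {v : EE n} (hv : v ∈ W) {T : EE n ≃L[ℝ] EE n}
    (hT : NearIso vol ψ W v T) {L : EE n ≃L[ℝ] (Fin n → ℝ)}
    (hL : HasFDerivAt (fun u => F (ψ u)) (L : EE n →L[ℝ] (Fin n → ℝ)) v) :
    Regular vol F (ψ v) := by
  refine ⟨fun u => ψ (v + T u), {u | v + T u ∈ W}, isParam_shift h hv T, by simp, ?_,
    T.trans L, ?_⟩
  · intro δ hδ
    obtain ⟨ρ, hρ, h1, h2, h3⟩ := hT δ hδ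
    refine ⟨ρ, hρ, ?_, ?_, ?_⟩
    · intro u hu
      simpa using h1 u hu
    · intro u hu u' hu'
      simpa using h2 u hu u' hu'
    · intro B hB hBm
      simpa using h3 B hB hBm
  · have h1 : HasFDerivAt (fun u : EE n => v + T u) (T : EE n →L[ℝ] EE n) 0 :=
      (T : EE n →L[ℝ] EE n).hasFDerivAt.const_add v
    have h2 : HasFDerivAt (fun u => F (ψ u)) (L : EE n →L[ℝ] (Fin n → ℝ)) (v + T 0) := by
      simpa using hL
    exact h2.comp 0 h1

lemma image_null {G : (Fin n → ℝ) → (Fin n → ℝ)} {K : NNReal} {O N : Set (Fin n → ℝ)}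
    (hG : LipschitzOnWith K G O) (hN : N ⊆ O) (h0 : volume N = 0) : volume (G '' N) = 0 := by
  have h1 := (hG.mono hN).hausdorffMeasure_image_le (d := (Fintype.card (Fin n) : ℝ))
    (by positivity)
  rw [hausdorffMeasure_pi_real, h0, mul_zero] at h1
  exact le_antisymm h1 bot_le

lemma locally_lip [MeasurableSpace M] {vol : Measure M} {F : M → Fin n → ℝ}
    (hF : ∀ k, LipschitzWith 1 (fun x => F x k)) {ψ : EE n → M}
    {W : Set (EE n)} (h : IsParam ψ W) {v : EE n} {T : EE n ≃L[ℝ] EE n}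
    (hT : NearIso vol ψ W v T) {w : Fin n → ℝ} (hw : ee n w = v) :
    ∃ (O : Set (Fin n → ℝ)) (K : NNReal), IsOpen O ∧ w ∈ O ∧
      LipschitzOnWith K (fun w => F (ψ (ee n w))) O := by
  obtain ⟨ρ, hρ, h1, h2, -⟩ := hT 1 one_pos
  have hc : Continuous fun w' : Fin n → ℝ => T.symm (ee n w' - v) := by fun_prop
  refine ⟨(fun w' => T.symm (ee n w' - v)) ⁻¹' Metric.ball 0 ρ,
    2 * ‖(T.symm : EE n →L[ℝ] EE n)‖₊ * ‖(ee n : (Fin n → ℝ) →L[ℝ] EE n)‖₊,
    Metric.isOpen_ball.preimage hc, ?_, ?_⟩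
  · change T.symm (ee n w - v) ∈ Metric.ball 0 ρ
    rw [hw, sub_self, map_zero]
    exact Metric.mem_ball_self hρ
  apply LipschitzOnWith.of_dist_le_mul
  intro a ha b hb
  have h3 := h2 _ ha _ hb
  simp only [ContinuousLinearEquiv.apply_symm_apply, add_sub_cancel] at h3
  refine (dist_le_of_lip hF _ _).trans (h3.trans ?_)
  have h4 : dist (T.symm (ee n a - v)) (T.symm (ee n b - v)) ≤
      ‖(T.symm : EE n →L[ℝ] EE n)‖ * (‖(ee n : (Fin n → ℝ) →L[ℝ] EE n)‖ * dist a b) := by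
    rw [dist_eq_norm, ← map_sub, sub_sub_sub_cancel_right, ← map_sub, dist_eq_norm]
    refine ((T.symm : EE n →L[ℝ] EE n).le_opNorm _).trans ?_
    exact mul_le_mul_of_nonneg_left ((ee n : (Fin n → ℝ) →L[ℝ] EE n).le_opNorm _) (norm_nonneg _)
  push_cast
  nlinarith

lemma crit_param [MeasurableSpace M] {vol : Measure M} {F : M → Fin n → ℝ}
    (hF : ∀ k, LipschitzWith 1 (fun x => F x k)) {ψ : EE n → M}
    {W : Set (EE n)} (h : IsParam ψ W) (hW : ∀ v ∈ W, ∃ T : EE n ≃L[ℝ] EE n, NearIso vol ψ W v T) :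
    volume ((fun w : Fin n → ℝ => F (ψ (ee n w))) ''
      {w | ee n w ∈ W ∧ ¬ Regular vol F (ψ (ee n w))}) = 0 := by
  classical
  set G : (Fin n → ℝ) → (Fin n → ℝ) := fun w => F (ψ (ee n w)) with hG
  set S : Set (Fin n → ℝ) := {w | ee n w ∈ W ∧ ¬ Regular vol F (ψ (ee n w))} with hS
  have h1 : ∀ w : Fin n → ℝ, ∃ (O : Set (Fin n → ℝ)) (K : NNReal), IsOpen O ∧
      (ee n w ∈ W → w ∈ O) ∧ LipschitzOnWith K G O := by
    intro w
    by_cases hw : ee n w ∈ W
    · obtain ⟨T, hT⟩ := hW _ hw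
      obtain ⟨O, K, h1, h2, h3⟩ := locally_lip hF h hT rfl
      exact ⟨O, K, h1, fun _ => h2, h3⟩
    · exact ⟨∅, 0, isOpen_empty, fun h => absurd h hw, by simp [LipschitzOnWith]⟩
  choose O K hO hwO hK using h1
  obtain ⟨t, htS, htc, hcov⟩ := TopologicalSpace.countable_cover_nhdsWithin (f := O) (s := S)
    (fun w hw => mem_nhdsWithin_of_mem_nhds ((hO w).mem_nhds (hwO w hw.1)))
  have h2 : G '' S ⊆ ⋃ w ∈ t, G '' (S ∩ O w) := by
    rintro _ ⟨w, hw, rfl⟩
    obtain ⟨w', hw', hww⟩ := mem_iUnion₂.1 (hcov hw)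
    exact mem_iUnion₂.2 ⟨w', hw', w, ⟨hw, hww⟩, rfl⟩
  refine measure_mono_null h2 ((measure_biUnion_null_iff htc).2 fun w _ => ?_)
  have h3 : G '' (S ∩ O w) ⊆ G '' {x ∈ O w | ¬ DifferentiableAt ℝ G x} ∪
      G '' {x ∈ S | DifferentiableAt ℝ G x} := by
    rintro _ ⟨x, ⟨hx, hxO⟩, rfl⟩
    by_cases hd : DifferentiableAt ℝ G x
    · exact Or.inr ⟨x, ⟨hx, hd⟩, rfl⟩
    · exact Or.inl ⟨x, ⟨hxO, hd⟩, rfl⟩
  refine measure_mono_null h3 (measure_union_null ?_ ?_)
  · apply image_null (hK w) (fun x hx => hx.1)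
    have h4 := (hK w).ae_differentiableWithinAt_of_mem (μ := volume)
    rw [ae_iff] at h4
    refine measure_mono_null ?_ h4
    rintro x ⟨hx, hd⟩ h5
    exact hd ((h5 hx).differentiableAt ((hO w).mem_nhds hx))
  · apply addHaar_image_eq_zero_of_det_fderivWithin_eq_zero volume
      (fun x hx => (hx.2.hasFDerivAt).hasFDerivWithinAt)
    rintro x ⟨⟨hxW, hxR⟩, hd⟩
    by_contra hdet
    apply hxR
    obtain ⟨T, hT⟩ := hW _ hxW
    let L' := (fderiv ℝ G x).toContinuousLinearEquivOfDetNeZero hdet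
    refine regular_of_deriv h hxW hT (L := (ee n).symm.trans L') ?_
    have h6 : (fun u => F (ψ u)) = G ∘ (ee n).symm := by
      funext u
      change F (ψ u) = F (ψ (ee n ((ee n).symm u)))
      rw [ContinuousLinearEquiv.apply_symm_apply]
    rw [h6]
    have h7 : HasFDerivAt G (L' : (Fin n → ℝ) →L[ℝ] (Fin n → ℝ)) ((ee n).symm (ee n x)) := by
      rw [ContinuousLinearEquiv.symm_apply_apply]
      exact hd.hasFDerivAt
    exact h7.comp (ee n x) ((ee n).symm : EE n →L[ℝ] (Fin n → ℝ)).hasFDerivAt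

/-- [CRIT] -/
theorem crit : CritStatement := by
  classical
  intro n M _ _ _ _ vol hM F hF
  choose ψ W hP h0 hN using hM
  obtain ⟨t, ht⟩ := isCompact_univ.elim_finite_subcover (fun z => ψ z '' W z)
    (fun z => (hP z).isOpenMap _ subset_rfl (hP z).isOpen)
    (fun z _ => mem_iUnion.2 ⟨z, 0, (hP z).zero_mem, h0 z⟩)
  have h1 : {t : Fin n → ℝ | ∃ x, F x = t ∧ ¬ Regular vol F x} ⊆
      ⋃ z ∈ t, (fun w : Fin n → ℝ => F (ψ z (ee n w))) ''
        {w | ee n w ∈ W z ∧ ¬ Regular vol F (ψ z (ee n w))} := by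
    rintro _ ⟨x, rfl, hx⟩
    obtain ⟨z, hz, v, hv, rfl⟩ := mem_iUnion₂.1 (ht (mem_univ x))
    refine mem_iUnion₂.2 ⟨z, hz, (ee n).symm v, ?_⟩
    constructor
    · constructor
      · rw [ContinuousLinearEquiv.apply_symm_apply]
        exact hv
      · rw [ContinuousLinearEquiv.apply_symm_apply]
        exact hx
    · change F (ψ z (ee n ((ee n).symm v))) = _
      rw [ContinuousLinearEquiv.apply_symm_apply]
  refine measure_mono_null h1 ?_
  exact (measure_biUnion_null_iff t.countable_toSet).2 fun z _ => crit_param hF (hP z) (hN z)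

end

end Pool.Agent.Lib.MP_72b724_gt.H1
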