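import Pool.Agent.Lib.MP_72b724_gt.H1.Crit

/-!
# DENS: the density of the volume at a regular point is at least one
-/

open scoped ENNReal Topology BigOperators
open MeasureTheory Set Filter Topology

namespace Pool.Agent.Lib.MP_72b724_gt.H1

noncomputable section

variable {n : ℕ} {M : Type} [MetricSpace M]

/-- Hadamard. -/
lemma abs_det_le (v : Fin n → EE n) (hv : ∀ k, ‖v k‖ ≤ 1) :
    |Matrix.det (Matrix.of fun k j => v k j)| ≤ 1 := by
  haveI : Fact (Module.finrank ℝ (EE n) = n) := ⟨by simp⟩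
  let b := EuclideanSpace.basisFun (Fin n) ℝ
  have h := b.toBasis.orientation.abs_volumeForm_apply_le v
  rw [Orientation.volumeForm_robust _ b rfl] at h
  have h1 : b.toBasis.det v = Matrix.det (Matrix.of fun k j => v k j) := by
    rw [Module.Basis.det_apply, ← Matrix.det_transpose]
    congr 1
  rw [h1] at h
  refine h.trans ?_
  exact Finset.prod_le_one (fun _ _ => norm_nonneg _) (fun k _ => hv k)

/-- The linear map in coordinates. -/
def lin (L : EE n ≃L[ℝ] (Fin n → ℝ)) : (Fin n → ℝ) →ₗ[ℝ] (Fin n → ℝ) :=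
  ((ee n).trans L : (Fin n → ℝ) ≃L[ℝ] (Fin n → ℝ)).toLinearEquiv.toLinearMap

lemma det_lin_ne (L : EE n ≃L[ℝ] (Fin n → ℝ)) : LinearMap.det (lin L) ≠ 0 :=
  ((ee n).trans L : (Fin n → ℝ) ≃L[ℝ] (Fin n → ℝ)).toLinearEquiv.isUnit_det'.ne_zero

lemma abs_det_lin_le (L : EE n ≃L[ℝ] (Fin n → ℝ))
    (hL : ∀ k, ‖(ContinuousLinearMap.proj k : (Fin n → ℝ) →L[ℝ] ℝ).comp
      (L : EE n →L[ℝ] (Fin n → ℝ))‖ ≤ 1) : |LinearMap.det (lin L)| ≤ 1 := by
  let v : Fin n → EE n := fun k => (InnerProductSpace.toDual ℝ (EE n)).symm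
    ((ContinuousLinearMap.proj k : (Fin n → ℝ) →L[ℝ] ℝ).comp (L : EE n →L[ℝ] (Fin n → ℝ)))
  have hv : ∀ k, ‖v k‖ ≤ 1 := fun k => by
    rw [LinearIsometryEquiv.norm_map]
    exact hL k
  have h1 : LinearMap.det (lin L) = Matrix.det (Matrix.of fun k j => v k j) := by
    rw [← LinearMap.det_toMatrix', ]
    congr 1
    ext k j
    rw [LinearMap.toMatrix'_apply]
    change L (ee n (Pi.single j 1)) k = v k j
    have h2 : inner ℝ (v k) (EuclideanSpace.single j (1 : ℝ)) =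
        L (EuclideanSpace.single j (1 : ℝ)) k := by
      simp only [v]
      rw [InnerProductSpace.toDual_symm_apply]
      rfl
    rw [EuclideanSpace.inner_single_right] at h2
    simp only [one_mul, conj_trivial] at h2
    rw [h2]
    rfl
  rw [h1]
  exact abs_det_le v hv

lemma volume_preimage_ge (L : EE n ≃L[ℝ] (Fin n → ℝ))
    (hL : ∀ k, ‖(ContinuousLinearMap.proj k : (Fin n → ℝ) →L[ℝ] ℝ).comp
      (L : EE n →L[ℝ] (Fin n → ℝ))‖ ≤ 1) (S : Set (Fin n → ℝ)) (hS : MeasurableSet S) :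
    volume S ≤ volume (L ⁻¹' S) := by
  have h1 : volume (L ⁻¹' S) = volume (lin L ⁻¹' S) := by
    have h2 := (PiLp.volume_preserving_toLp (Fin n)).measure_preimage
      (s := L ⁻¹' S) (hS.preimage L.continuous.measurable).nullMeasurableSet
    rw [← h2]
    rfl
  rw [h1, Measure.addHaar_preimage_linearMap volume (det_lin_ne L)]
  have h3 : 1 ≤ |(LinearMap.det (lin L))⁻¹| := by
    rw [abs_inv]
    exact (one_le_inv₀ (abs_pos.2 (det_lin_ne L))).2 (abs_det_lin_le L hL)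
  calc volume S = 1 * volume S := (one_mul _).symm
    _ ≤ _ := by
      gcongr
      rw [← ENNReal.ofReal_one]
      exact ENNReal.ofReal_le_ofReal h3

/-- [DENS] -/
theorem dens : DensStatement := by
  intro n M _ _ _ vol F hF z hz U hU hzU c hc
  obtain ⟨ψ, W, hP, rfl, hN, L, hL⟩ := hz
  -- the derivative
  have hLk : ∀ k, ‖(ContinuousLinearMap.proj k : (Fin n → ℝ) →L[ℝ] ℝ).comp
      (L : EE n →L[ℝ] (Fin n → ℝ))‖ ≤ 1 := by
    intro k
    apply le_of_forall_pos_le_add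
    intro δ hδ
    obtain ⟨ρ, hρ, -, h2, -⟩ := hN δ hδ
    have h3 : HasFDerivAt (fun v => F (ψ v) k)
        ((ContinuousLinearMap.proj k : (Fin n → ℝ) →L[ℝ] ℝ).comp
          (L : EE n →L[ℝ] (Fin n → ℝ))) 0 :=
      (ContinuousLinearMap.proj k : (Fin n → ℝ) →L[ℝ] ℝ).hasFDerivAt.comp 0 hL
    have h4 := h3.le_of_lipschitzOn (C := ⟨1 + δ, by linarith⟩) (Metric.ball_mem_nhds 0 hρ) (by
      apply LipschitzOnWith.of_dist_le_mul
      intro a ha b hb
      refine ((hF k).dist_le_mul _ _).trans ?_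
      have h5 := h2 a ha b hb
      simp only [ContinuousLinearEquiv.coe_refl', id_eq, zero_add] at h5
      simp only [NNReal.coe_one, one_mul]
      exact h5)
    exact h4
  -- the choice of delta
  have hδ' : ∀ᶠ δ in 𝓝[>] (0 : ℝ), c < (1 - δ) * (1 - 2 * δ) ^ n := by
    have h1 : Tendsto (fun δ : ℝ => (1 - δ) * (1 - 2 * δ) ^ n) (𝓝[>] (0 : ℝ))
        (𝓝 ((1 - 0) * (1 - 2 * 0) ^ n)) := by
      apply Tendsto.mono_left _ nhdsWithin_le_nhds
      apply Continuous.tendsto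
      fun_prop
    rw [sub_zero, mul_zero, sub_zero, one_pow, mul_one] at h1
    exact h1.eventually (lt_mem_nhds hc)
  have hδ'' : ∀ᶠ δ in 𝓝[>] (0 : ℝ), 0 < δ ∧ δ < 1 / 4 :=
    Ioo_mem_nhdsGT (by norm_num : (0 : ℝ) < 1 / 4)
  obtain ⟨δ, hδc, hδ0, hδ4⟩ := (hδ'.and hδ'').exists
  obtain ⟨ρ, hρ, -, -, h3⟩ := hN δ hδ0
  set κ : ℝ := ‖(L.symm : (Fin n → ℝ) →L[ℝ] EE n)‖ + 1 with hκ
  have hκ0 : 0 < κ := by positivity
  -- the good neighbourhood of 0
  have hU' : ψ ⁻¹' U ∈ 𝓝 (0 : EE n) :=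
    (hP.cont.continuousAt (hP.isOpen.mem_nhds hP.zero_mem)).preimage_mem_nhds (hU.mem_nhds hzU)
  have hE : ∀ᶠ u in 𝓝 (0 : EE n), ‖F (ψ u) - F (ψ 0) - L u‖ ≤ δ / κ * ‖u‖ := by
    have h4 := hL.isLittleO.def (div_pos hδ0 hκ0)
    simpa using h4
  obtain ⟨r, hr, hball⟩ := Metric.mem_nhds_iff.1 (inter_mem hU'
    (inter_mem hE (Metric.ball_mem_nhds (0 : EE n) hρ)))
  have hev : ∀ᶠ ε in 𝓝[>] (0 : ℝ), 0 < ε ∧ ε < r / κ := by
    filter_upwards [Ioo_mem_nhdsGT (div_pos hr hκ0)] with ε hε using hε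
  filter_upwards [hev] with ε hε
  obtain ⟨hε0, hεr⟩ := hε
  set Q : Set (Fin n → ℝ) := Set.pi univ fun _ => Ico (δ * ε) ((1 - δ) * ε) with hQ
  have hQm : MeasurableSet Q := MeasurableSet.univ_pi fun _ => measurableSet_Ico
  have hnorm : ∀ u ∈ L ⁻¹' Q, ‖u‖ ≤ κ * ε := by
    intro u hu
    have h5 : ‖L u‖ ≤ ε := by
      rw [pi_norm_le_iff_of_nonneg hε0.le]
      intro k
      have h6 := hu k (mem_univ k)
      rw [Real.norm_eq_abs, abs_le]
      constructor <;> nlinarith [h6.1, h6.2]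
    have h7 : ‖u‖ ≤ ‖(L.symm : (Fin n → ℝ) →L[ℝ] EE n)‖ * ‖L u‖ := by
      have := (L.symm : (Fin n → ℝ) →L[ℝ] EE n).le_opNorm (L u)
      simpa using this
    refine h7.trans ?_
    have h8 : ‖(L.symm : (Fin n → ℝ) →L[ℝ] EE n)‖ ≤ κ := by rw [hκ]; linarith
    exact mul_le_mul h8 h5 (norm_nonneg _) hκ0.le
  have hsub : L ⁻¹' Q ⊆ Metric.ball 0 r := by
    intro u hu
    rw [mem_ball_zero_iff]
    refine (hnorm u hu).trans_lt ?_
    rw [lt_div_iff₀ hκ0] at hεr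
    linarith
  have hvol : ENNReal.ofReal (1 - δ) * volume (L ⁻¹' Q) ≤ vol (ψ '' (L ⁻¹' Q)) := by
    have h9 := h3 (L ⁻¹' Q) (fun u hu => (hball (hsub hu)).2.2) (hQm.preimage L.continuous.measurable)
    simpa using h9
  have himg : ψ '' (L ⁻¹' Q) ⊆ U ∩ {x | ∀ k, F (ψ 0) k ≤ F x k ∧ F x k < F (ψ 0) k + ε} := by
    rintro _ ⟨u, hu, rfl⟩
    obtain ⟨h10, h11, -⟩ := hball (hsub hu)
    refine ⟨h10, fun k => ?_⟩
    have h12 : ‖F (ψ u) - F (ψ 0) - L u‖ ≤ δ * ε := by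
      refine h11.trans ?_
      calc δ / κ * ‖u‖ ≤ δ / κ * (κ * ε) :=
            mul_le_mul_of_nonneg_left (hnorm u hu) (div_pos hδ0 hκ0).le
        _ = δ * ε := by field_simp
    have h13 := (norm_le_pi_norm (F (ψ u) - F (ψ 0) - L u) k).trans h12
    rw [Real.norm_eq_abs, abs_le, Pi.sub_apply, Pi.sub_apply] at h13
    have h14 := hu k (mem_univ k)
    constructor <;> linarith [h13.1, h13.2, h14.1, h14.2]
  refine le_trans ?_ (hvol.trans (measure_mono himg))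
  have hQv : volume Q = ENNReal.ofReal (((1 - 2 * δ) * ε) ^ n) := by
    rw [hQ, Real.volume_pi_Ico]
    simp only [Finset.prod_const, Finset.card_univ, Fintype.card_fin]
    rw [← ENNReal.ofReal_pow (by nlinarith)]
    congr 2
    ring
  calc ENNReal.ofReal (c * ε ^ n) ≤ ENNReal.ofReal ((1 - δ) * ((1 - 2 * δ) * ε) ^ n) := by
        apply ENNReal.ofReal_le_ofReal
        rw [mul_pow]
        have : 0 < ε ^ n := pow_pos hε0 n
        nlinarith
    _ = ENNReal.ofReal (1 - δ) * volume Q := by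
        rw [hQv, ENNReal.ofReal_mul (by linarith)]
    _ ≤ _ := by
        gcongr
        exact volume_preimage_ge L hLk Q hQm

end

end Pool.Agent.Lib.MP_72b724_gt.H1
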